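import Pool.Agent.Lib.MP_127c84_nt.GsAll
import Pool.Agent.Lib.MP_127c84_nt.Up

/-!
The series of reciprocal gaps between consecutive monic irreducible polynomials over a finite
field of characteristic two, numbered by their digits, converges exactly for exponents above two.
-/

open Polynomial

theorem Pool.Agent.Results.MP_127c84_nt.EvenCharSeries.result
    (k : Type) [Field k] [Fintype k] [CharP k 2] (φ : ℕ → k)
    (hφ : Set.BijOn φ (Set.Iio (Fintype.card k)) Set.univ) (h0 : φ 0 = 0) (e : ℕ → k[X])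
    (he : ∀ m, e m = ∑ i ∈ Finset.range m,
      monomial i (φ (m / Fintype.card k ^ i % Fintype.card k))) (c : ℝ) :
    Summable (fun n : ℕ =>
      (1 : ℝ) / (((n : ℝ) + 3) * (Real.log (Real.log ((n : ℝ) + 3))) ^ c *
        ((Nat.nth (fun m => (e m).Monic ∧ Irreducible (e m)) (n + 3) : ℝ) -
          (Nat.nth (fun m => (e m).Monic ∧ Irreducible (e m)) (n + 2) : ℝ)))) ↔ 2 < c := by
  obtain ⟨c', H⟩ := Pool.Agent.Lib.MP_127c84_nt.exists_code φ hφ h0 e he
  refine ⟨fun hs => not_le.1 fun hc => Pool.Agent.Lib.MP_127c84_nt.low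
    Pool.Agent.Lib.MP_127c84_nt.gsUni Pool.Agent.Lib.MP_127c84_nt.gsTri H hc hs, fun hc => ?_⟩
  exact Pool.Agent.Lib.MP_127c84_nt.up Pool.Agent.Lib.MP_9227d9_nt.Mob.twSel
    Pool.Agent.Lib.MP_127c84_nt.gsMM Pool.Agent.Lib.MP_127c84_nt.gsUni H hc
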