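import Pool.Agent.FS.HalfPrimes.Ser

/-!
One prime can be chosen from each pair of consecutive primes so that the chosen half is
distributed like half of all primes against countably many given test functions, while its
reciprocal gap series converges exactly for exponents above one.
-/

namespace Pool.Agent.Results.MP_127c84_nt.HalfPrimes

open Pool.Agent.FS.HalfPrimes

theorem result : ∃ C : ℝ, ∀ (F : ℕ → ℕ → ℝ) (X : ℕ → ℕ), (∀ i, 2 ≤ X i) →
    ∃ a : ℕ → ℕ,
      (∀ m, a m = Nat.nth Nat.Prime (2 * m) ∨ a m = Nat.nth Nat.Prime (2 * m + 1)) ∧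
      (∀ i, |2 * ∑ m ∈ (Finset.range (X i + 1)).filter (fun m => a m ≤ X i), F i (a m) -
          ∑ p ∈ (Finset.range (X i + 1)).filter Nat.Prime, F i p| ≤
        C * Real.log ((i : ℝ) + 2) *
          √(Real.log (X i) * ∑ p ∈ (Finset.range (X i + 1)).filter Nat.Prime, F i p ^ 2)) ∧
      ∀ c : ℝ, (Summable fun m : ℕ => 1 / (((m : ℝ) + 3) * Real.log (Real.log ((m : ℝ) + 3)) ^ c *
        ((a (m + 3) : ℝ) - a (m + 2)))) ↔ 1 < c := by
  obtain ⟨C, h⟩ := dist
  refine ⟨C, fun F X hX => ?_⟩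
  obtain ⟨ε, he, hd⟩ := h F X hX
  refine ⟨sel ε, fun m => ?_, hd, fun c => ?_⟩
  · rcases Nat.le_one_iff_eq_zero_or_eq_one.1 (he (blk m)) with e | e
    · exact Or.inl (by rw [sel, e]; rfl)
    · exact Or.inr (by rw [sel, e]; rfl)
  · rw [← series he c, ← summable_nat_add_iff (f := fun m : ℕ => 1 / (((m : ℝ) + 1) *
      Real.log (Real.log ((m : ℝ) + 1)) ^ c * ((sel ε (m + 1) : ℝ) - sel ε m))) 2]
    refine summable_congr fun m => ?_
    have e : ((m + 2 : ℕ) : ℝ) + 1 = (m : ℝ) + 3 := by push_cast; ring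
    rw [e]

end Pool.Agent.Results.MP_127c84_nt.HalfPrimes
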