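import Pool.Agent.Lib.MP_127c84_nt.EN.Link

/-!
For almost every exponent `c` between one and three halves, the series of reciprocal gaps between
consecutive primes of the form `⌊m ^ c⌋`, measured after taking the root of order `c`, converges
exactly for weights above two.
-/

theorem Pool.Agent.Results.MP_127c84_nt.PiatetskiShapiroSeries.result :
    ∀ᵐ c : ℝ, 1 < c → c < 3 / 2 →
      {p : ℕ | p.Prime ∧ ∃ m : ℕ, p = ⌊(m : ℝ) ^ c⌋₊}.Infinite ∧
      ∀ q : ℕ → ℕ, q = Nat.nth (fun p : ℕ => p.Prime ∧ ∃ m : ℕ, p = ⌊(m : ℝ) ^ c⌋₊) → ∀ g : ℝ,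
        Summable (fun n : ℕ =>
          (1 : ℝ) / (((n : ℝ) + 3) * (Real.log (Real.log ((n : ℝ) + 3))) ^ g *
            ((q (n + 3) : ℝ) ^ (1 / c) - (q (n + 2) : ℝ) ^ (1 / c)))) ↔ 2 < g := by
  filter_upwards [Pool.Agent.Lib.MP_127c84_nt.EN.mainP] with c h h1 h2
  refine ⟨(h h1 h2).1, fun q hq g => ?_⟩
  subst hq
  exact (h h1 h2).2 g
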